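import Mathlib
import Pool.Agent.Lib.MP_a8bb0e_al.Ex.Main

set_option autoImplicit false

namespace Pool.Agent.Results.MP_a8bb0e_al.ExtremeRank

open Pool.Agent.Lib.MP_a8bb0e_al.Tor

/-- Let `G` be finitely generated nilpotent of class two, `n` the rank of its abelianisation and `m`
the rank of its commutator subgroup, with `m ≤ 1` or `m ≥ C(n,2) - 1`. Let `J` be the isolator of
the commutator subgroup and `e` the number of torsion elements of `G` times the order of the torsion
subgroup of the abelianisation. Then `G` has genus one if and only if the set of index pairs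
`([G : K], [J : K ∩ J])` of the subgroups `K` isomorphic to `G` is closed under roots prime to `e`. -/
theorem result (G : Type) [Group G] [Group.IsNilpotent G] [Group.FG G]
    (hG : Group.nilpotencyClass G = 2) (n m e : ℕ) (J : Subgroup G)
    (hn : n = Module.finrank ℤ (Additive (Abelianization G)))
    (hm : m = Module.finrank ℤ (Additive (Abelianization (commutator G))))
    (h : m ≤ 1 ∨ n.choose 2 ≤ m + 1)
    (he : e = Nat.card {x : G // IsOfFinOrder x} * Nat.card (CommGroup.torsion (Abelianization G)))
    (hJ : ∀ x, x ∈ J ↔ ∃ k : ℕ, 0 < k ∧ x ^ k ∈ commutator G) :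
    GenusOne G ↔ ∀ a c j : ℕ, 0 < a → 0 < j → a.Coprime e →
      (∃ K : Subgroup G, Nonempty (K ≃* G) ∧ K.index = a ^ j ∧ K.relIndex J = c ^ j) →
        ∃ K : Subgroup G, Nonempty (K ≃* G) ∧ K.index = a ∧ K.relIndex J = c :=
  he ▸ Pool.Agent.Lib.MP_a8bb0e_al.Ex.main G hG hn hm h hJ

end Pool.Agent.Results.MP_a8bb0e_al.ExtremeRank
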