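import Mathlib
import Pool.Agent.Lib.MP_a8bb0e_al.Final

set_option autoImplicit false
open scoped commutatorElement

namespace Pool.Agent.Results.MP_a8bb0e_al.GraphGroups

/-- For a finite simple graph that is not complete, the class two quotient of its right-angled
Artin group is a finitely generated nilpotent group of class exactly two and of genus one. -/
theorem result (V : Type) [Finite V] (Γ : SimpleGraph V) (hΓ : Γ ≠ ⊤) (R : Set (FreeGroup V))
    (hR : R = {r | (∃ a b, Γ.Adj a b ∧ r = ⁅FreeGroup.of a, FreeGroup.of b⁆) ∨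
      ∃ u v w : FreeGroup V, r = ⁅⁅u, v⁆, w⁆}) :
    Group.FG (PresentedGroup R) ∧ Group.nilpotencyClass (PresentedGroup R) = 2 ∧
      ∀ (H : Type) [Group H] [Group.IsNilpotent H] [Group.FG H],
        (∀ (Q : Type) [Group Q] [Finite Q], (∃ f : H →* Q, Function.Surjective f) ↔
          (∃ f : PresentedGroup R →* Q, Function.Surjective f)) →
        Nonempty (H ≃* PresentedGroup R) := by
  classical
  have := Fintype.ofFinite V
  subst hR
  refine ⟨Group.fg_of_surjective (PresentedGroup.mk_surjective _),
    Pool.Agent.Lib.MP_a8bb0e_al.class_two hΓ, fun H _ _ _ h => ?_⟩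
  obtain ⟨e⟩ := Pool.Agent.Lib.MP_a8bb0e_al.genus_one (Γ := Γ) (H := H) h
  exact ⟨e.symm⟩

end Pool.Agent.Results.MP_a8bb0e_al.GraphGroups
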