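import Mathlib
import Pool.Agent.Lib.MP_a8bb0e_al.Uni.Main

set_option autoImplicit false

namespace Pool.Agent.Results.MP_a8bb0e_al.Universal

open Pool.Agent.Lib.MP_a8bb0e_al.Uni

/-- For every bilinear product `μ` on `ℤ ^ d`, `d ≥ 1`, the central extension defined by the
cocycle `coc μ` is finitely generated, nilpotent of class exactly two, and it has genus one if and
only if every product `ν` on `ℤ ^ d` that is isomorphic to `μ` modulo every `m` is isomorphic to
`μ` over `ℤ`. -/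
theorem result (d : ℕ) (hd : 0 < d) (μ : Fin d → Fin d → Fin d → ℤ) :
    ∃ (G : Type) (_ : Group G) (e : G ≃ (Cr d ⊕ Ax d → ℤ) × (Ce d → ℤ)),
      (∀ a b, e (a * b) = ((e a).1 + (e b).1, (e a).2 + (e b).2 + coc μ (e a).1 (e b).1)) ∧
      Group.FG G ∧ Group.nilpotencyClass G = 2 ∧
      ((∀ (H : Type) [Group H] [Group.IsNilpotent H] [Group.FG H],
          (∀ (Q : Type) [Group Q] [Finite Q], (∃ f : H →* Q, Function.Surjective f) ↔
            (∃ f : G →* Q, Function.Surjective f)) → Nonempty (H ≃* G)) ↔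
        ∀ ν : Fin d → Fin d → Fin d → ℤ,
          (∀ m : ℕ, 0 < m → RIso (ZMod m) ν μ) → RIso ℤ ν μ) :=
  ⟨GG μ, inferInstance, ⟨fun a => (a.x, a.c), fun p => ⟨p.1, p.2⟩, fun _ => rfl, fun _ => rfl⟩,
    fun _ _ => rfl, inferInstance, (class_two (ext μ) (.inl ⟨0, hd⟩)).2, genus_iff hd⟩

end Pool.Agent.Results.MP_a8bb0e_al.Universal
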